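import Pool.Agent.H2.KL.Stm

set_option autoImplicit false

open Finset Module

namespace H2.KL

theorem enough (q : ℕ) [NeZero q] : HasEnoughRootsOfUnity (Multiplicative (ZMod q)) q where
  prim := by
    refine ⟨Multiplicative.ofAdd 1, ?_⟩
    have : orderOf (Multiplicative.ofAdd (1 : ZMod q)) = q := by
      rw [orderOf_ofAdd_eq_addOrderOf, ZMod.addOrderOf_one]
    conv => rhs; rw [← this]
    exact IsPrimitiveRoot.orderOf _
  cyc := by
    have : IsCyclic (Multiplicative (ZMod q))ˣ :=
      isCyclic_of_surjective (toUnits (G := Multiplicative (ZMod q))).toMonoidHom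
        (toUnits (G := Multiplicative (ZMod q))).surjective
    infer_instance

/-- functionals as multiplicative homomorphisms -/
noncomputable def homEquiv (q : ℕ) (B : Type) [AddCommGroup B] :
    (B →+ ZMod q) ≃ (Multiplicative B →* (Multiplicative (ZMod q))ˣ) :=
  (AddMonoidHom.toMultiplicative (α := B) (β := ZMod q)).trans
    { toFun := fun f => (toUnits (G := Multiplicative (ZMod q))).toMonoidHom.comp f
      invFun := fun f => (toUnits (G := Multiplicative (ZMod q))).symm.toMonoidHom.comp f
      left_inv := fun f => by ext x; simp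
      right_inv := fun f => by ext x; simp }

theorem homEquiv_apply (q : ℕ) (B : Type) [AddCommGroup B] (f : B →+ ZMod q) (x : B) :
    ((homEquiv q B f (Multiplicative.ofAdd x) : (Multiplicative (ZMod q))ˣ) :
      Multiplicative (ZMod q)).toAdd = f x := rfl

theorem t_DUAL : S_DUAL := by
  intro q _ B _ _ hq
  have hexp : Monoid.exponent (Multiplicative B) ∣ q := by
    apply Monoid.exponent_dvd_of_forall_pow_eq_one
    intro x
    exact congrArg Multiplicative.ofAdd (hq x.toAdd)
  have h0 := enough q
  have h1 : HasEnoughRootsOfUnity (Multiplicative (ZMod q)) (Monoid.exponent (Multiplicative B)) :=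
    HasEnoughRootsOfUnity.of_dvd _ hexp
  refine ⟨?_, ?_, ?_⟩
  · rw [Nat.card_congr (homEquiv q B),
      CommGroup.card_monoidHom_of_hasEnoughRootsOfUnity (Multiplicative B) (Multiplicative (ZMod q))]
    exact Nat.card_congr Multiplicative.toAdd
  · intro x hx
    obtain ⟨φ, hφ⟩ := CommGroup.exists_apply_ne_one_of_hasEnoughRootsOfUnity (Multiplicative B)
      (Multiplicative (ZMod q)) (a := Multiplicative.ofAdd x) (fun h => hx (by simpa using h))
    refine ⟨(homEquiv q B).symm φ, fun h => hφ ?_⟩
    rw [← homEquiv_apply, Equiv.apply_symm_apply] at h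
    apply Units.ext
    exact Multiplicative.toAdd.injective h
  · intro C f
    have hs := MonoidHom.domRestrict_surjective (G := Multiplicative B) (Multiplicative (ZMod q))
      (AddSubgroup.toSubgroup C)
    obtain ⟨g, hg⟩ := hs (homEquiv q C f)
    refine ⟨(homEquiv q B).symm g, fun x => ?_⟩
    rw [← homEquiv_apply, Equiv.apply_symm_apply, ← homEquiv_apply q C f x, ← hg]
    rfl

end H2.KL
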