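import Pool.Agent.H2.KL.Basic

/-!
# KL, representation block: the statements.  Each part proves `theorem t_XX (deps) : S_XX`.
Useful proved lemmas: `Pool.Agent.H2.KL.Basic` (grp, Ad_mul, Ad_sub_mem, stab_iff, map_der, ...).
-/

set_option autoImplicit false

open Finset Module

namespace H2.KL

/-- DUAL: duality of finite abelian groups with values in `ZMod q`: number of functionals, and
extension from a subgroup. (Mathlib: `AddChar`, `ZMod.stdAddChar`, or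
`CommGroup.monoidHom_mulEquiv_of_hasEnoughRootsOfUnity`; the extension follows from the counting:
the kernel of the restriction is `Hom (B/C)`.) -/
def S_DUAL : Prop := ∀ (q : ℕ) [NeZero q] (B : Type) [AddCommGroup B] [Finite B],
  (∀ x : B, q • x = 0) →
  Nat.card (B →+ ZMod q) = Nat.card B ∧
  (∀ x : B, x ≠ 0 → ∃ f : B →+ ZMod q, f x ≠ 0) ∧
  ∀ (C : AddSubgroup B) (f : C →+ ZMod q), ∃ g : B →+ ZMod q, ∀ x : C, g x = f x

/-- CHAIN: a chain of ideals with steps of order `p` from the ideal `a` to `k`.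
(If `i < k` is an ideal then `i + [k,k] + p k ≠ k`... more generally between two ideals `i < j` there
is an ideal of index `p` in `j`: `i + [k,j] + p j ≠ j` by nilpotency and since `j` is a `p`-group.) -/
def S_CHAIN : Prop := ∀ (p N : ℕ) [Fact p.Prime] (k : Type) [LieRing k] [Finite k],
  (∀ x : k, (p ^ N) • x = 0) → (∃ n, lcs k n = ⊥) → ∀ a : AddSubgroup k, IsIdl a →
  ∃ (n : ℕ) (c : ℕ → AddSubgroup k), c 0 = a ∧ c n = ⊤ ∧
    (∀ i, i ≤ n → IsIdl (c i)) ∧ ∀ i, i < n → c i ≤ c (i + 1) ∧ (c i).relIndex (c (i + 1)) = p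

/-- VST (one step of Vergne's construction; only linear algebra).  With `R = radIn φ m'`:
(a) `R ≰ m`: then `radIn φ m = R ⊓ m` has index `p` in `R` and `|h + R| = p |h|`;
(b) `R ≤ m`: then the orthogonal of `m` in `m'` is contained in `m` (an `x ∈ m' \ m` orthogonal to `m`
is orthogonal to `m' = m + ℤ x`), equals `radIn φ m` and has order `p |R|` (perfect pairing
`m'/R × m'/R → ZMod q`, uses DUAL); `h + R = h`. -/
def S_VST : Prop := ∀ (p q : ℕ) [Fact p.Prime] [NeZero q] (k : Type) [LieRing k] [Finite k],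
  (∀ x : k, q • x = 0) → ∀ (φ : k →+ ZMod q) (m m' h : AddSubgroup k), m ≤ m' →
  m.relIndex m' = p → h ≤ m → radIn φ m ≤ h →
  Nat.card h ^ 2 = Nat.card m * Nat.card (radIn φ m) →
  Nat.card (h ⊔ radIn φ m' : AddSubgroup k) ^ 2 = Nat.card m' * Nat.card (radIn φ m')

/-- POL (Vergne polarization containing the abelian ideal `a`).  `h = ⨆ i, radIn φ (c i)` over the chain
from CHAIN.  For `x ∈ radIn φ (c i)`, `y ∈ radIn φ (c j)`, `i ≤ j`: `⁅x,y⁆ ∈ radIn φ (c i)` (ideal and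
Jacobi) and `φ ⁅x,y⁆ = 0`.  Cardinality by induction on `i` with VST (`radIn φ a = a`). -/
def S_POL : Prop := ∀ (p N : ℕ) [Fact p.Prime] (k : Type) [LieRing k] [Finite k],
  (∀ x : k, (p ^ N) • x = 0) → (∃ n, lcs k n = ⊥) →
  ∀ a : AddSubgroup k, IsIdl a → (∀ x ∈ a, ∀ y ∈ a, ⁅x, y⁆ = 0) →
  ∀ φ : k →+ ZMod (p ^ N), ∃ h : AddSubgroup k, IsPol φ h ∧ a ≤ h

/-- ORB: `exp h` acts transitively on `φ + h^⊥`.  The map `x ↦ φ ∘ Ad (e x)` from `h` into
`X = {ψ | ψ = φ on h}` (`Ad_sub_mem`, `map_der`) has fibres of size `|rad φ|` (`stab_iff`, cosets of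
`exp (rad φ) ≤ exp h`), and `|X| = |k| / |h|` (DUAL) `= |h| / |rad φ|`. -/
def S_ORB : Prop := ∀ (q : ℕ) [NeZero q] (K : Type) [Group K] [Finite K] (k : Type) [LieRing k]
  [Finite k] (L : LExp K k), (∀ x : k, q • x = 0) → ∀ (φ : k →+ ZMod q) (h : AddSubgroup k),
  IsPol φ h → ∀ ψ : k →+ ZMod q, (∀ x ∈ h, ψ x = φ x) →
  ∃ x ∈ h, ∀ y, ψ y = φ (L.Ad (L.e x) y)

/-- MACK.  Let `φ' = φ ∘ Ad g`, `h' = {y | Ad g y ∈ h}`; `φ, φ'` agree on `h ⊓ h'`, so some `ψ` extends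
`φ|h` and `φ'|h'` (DUAL).  By ORB `ψ = φ ∘ Ad (e x)` and `ψ ∘ Ad g⁻¹ = φ ∘ Ad (e y)` with `x, y ∈ h`, so
`e x * g⁻¹ * (e y)⁻¹` stabilises `φ` and lies in `exp (rad φ) ≤ exp h` (`stab_iff`). -/
def S_MACK : Prop := ∀ (q : ℕ) [NeZero q] (K : Type) [Group K] [Finite K] (k : Type) [LieRing k]
  [Finite k] (L : LExp K k), (∀ x : k, q • x = 0) → ∀ (φ : k →+ ZMod q) (h : AddSubgroup k),
  IsPol φ h → ∀ g : K, (∀ y ∈ h, L.Ad g y ∈ h → φ (L.Ad g y) = φ y) → L.e.symm g ∈ h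

/-- `w` is an eigenvector of `exp h` with character `φ` -/
def EigV {K V k : Type} [Group K] [LieRing k] [AddCommGroup V] [Module ℂ V] {q : ℕ}
    [NeZero q] (L : LExp K k) (ρ : Representation ℂ K V) (φ : k →+ ZMod q)
    (h : AddSubgroup k) (w : V) : Prop :=
  ∀ x ∈ h, ρ (L.e x) w = (ZMod.stdAddChar (N := q) (φ x) : ℂ) • w

/-- SPAN: the `K`-span of an eigenvector of a polarization has dimension `|k| / |h| = [K : exp h]`.
Let `E = ∑_{x ∈ h} stdAddChar (-(φ x)) • ρ (e x)`.  `E w = |h| w`, and `E (ρ g w) = 0` if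
`e.symm g ∉ h`: by MACK (for `g⁻¹`) there is `y ∈ h` with `Ad g⁻¹ y ∈ h`, `φ (Ad g⁻¹ y) ≠ φ y`, and
`E = stdAddChar (-(φ y)) • E ρ(e y)`.  So the vectors `ρ g w`, `g` in a set of representatives of
`K / exp h`, are linearly independent (translate a relation so that the coefficient of `w` is
non-zero and apply `E`), and they span. -/
def S_SPAN : Prop := ∀ (q : ℕ) [NeZero q] (K : Type) [Group K] [Finite K] (k : Type) [LieRing k]
  [Finite k] (L : LExp K k), (∀ x : k, q • x = 0) → ∀ (φ : k →+ ZMod q) (h : AddSubgroup k),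
  IsPol φ h → ∀ (V : Type) [AddCommGroup V] [Module ℂ V] [FiniteDimensional ℂ V]
  (ρ : Representation ℂ K V) (w : V), w ≠ 0 → EigV L ρ φ h w →
  finrank ℂ (Submodule.span ℂ (Set.range fun g : K => ρ g w)) * Nat.card h = Nat.card k

/-- EXI: an irreducible representation of `G` containing a given linear character `lam` of a subgroup
`H` (in the regular representation `∑_{x ∈ H} lam x⁻¹ x` is a non-zero eigenvector; decompose by
Maschke into irreducibles and project). -/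
def S_EXI : Prop := ∀ (G : Type) [Group G] [Finite G] (H : Subgroup G) (lam : H →* ℂˣ),
  ∃ (V : Type) (_ : AddCommGroup V) (_ : Module ℂ V) (_ : FiniteDimensional ℂ V)
    (ρ : Representation ℂ G V) (w : V), ρ.IsIrreducible ∧ w ≠ 0 ∧
    ∀ x : H, ρ x w = ((lam x : ℂˣ) : ℂ) • w

/-- DIMGE: `w` is an eigenvector of the normal subgroup `A` with character `χ` whose stabiliser is in
`K`: the subspaces `ρ(g) U`, `U = span (K w)`, `g ∈ G / K`, are sums of `A`-eigenspaces for disjoint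
sets of characters, so they are independent. -/
def S_DIMGE : Prop := ∀ (G : Type) [Group G] [Finite G] (K A : Subgroup G) [K.Normal] [A.Normal],
  A ≤ K → ∀ (V : Type) [AddCommGroup V] [Module ℂ V] [FiniteDimensional ℂ V]
  (ρ : Representation ℂ G V) (χ : G → ℂ) (w : V), w ≠ 0 → (∀ a ∈ A, ρ a w = χ a • w) →
  (∀ g : G, (∀ a ∈ A, χ (g⁻¹ * a * g) = χ a) → g ∈ K) →
  K.index * finrank ℂ (Submodule.span ℂ (Set.range fun g : K => ρ g w)) ≤ finrank ℂ V

/-- UP: `V = ∑_{g ∈ G/K} ρ(g) U`. -/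
def S_UP : Prop := ∀ (G : Type) [Group G] [Finite G] (K : Subgroup G) [K.Normal]
  (V : Type) [AddCommGroup V] [Module ℂ V] [FiniteDimensional ℂ V] (ρ : Representation ℂ G V),
  ρ.IsIrreducible → ∀ w : V, w ≠ 0 →
  finrank ℂ V ≤ K.index * finrank ℂ (Submodule.span ℂ (Set.range fun g : K => ρ g w))

/-- TRACE (completeness).  `T ψ = ∑_{x : k} stdAddChar (-(ψ x)) • ρ (e x)`; `∑_ψ T ψ = |k| • 1` (DUAL),
so some `T ψ` has non-zero trace.  For a polarization `h` of `ψ`: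
`∑_{ψ' = ψ on h} T ψ' = (|k|/|h|) ∑_{x ∈ h} stdAddChar (-(ψ x)) • ρ (e x)`, and by ORB all these `T ψ'`
are conjugate, so the operator `∑_{x ∈ h} stdAddChar (-(ψ x)) • ρ (e x)` has trace `≠ 0`; its non-zero
values are eigenvectors. -/
def S_TRACE : Prop := ∀ (q : ℕ) [NeZero q] (K : Type) [Group K] [Finite K] (k : Type) [LieRing k]
  [Finite k] (L : LExp K k), (∀ x : k, q • x = 0) →
  ∀ (V : Type) [AddCommGroup V] [Module ℂ V] [FiniteDimensional ℂ V] [Nontrivial V]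
  (ρ : Representation ℂ K V), ∃ ψ : k →+ ZMod q, ∀ h : AddSubgroup k, IsPol ψ h →
  ∃ w : V, w ≠ 0 ∧ EigV L ρ ψ h w

/-- REP (main statement of the block).  (i) TRACE for `V` restricted to `K`, POL, SPAN, UP.
(ii) POL (`a ≤ h`), EXI for `H = exp h ≤ G` and the character `φ ∘ log` (multiplicative by `L.mul` and
`map_der`), SPAN, DIMGE with `A = exp a`. -/
def S_REP : Prop := ∀ (p N : ℕ) [Fact p.Prime] (G : Type) [Group G] [Finite G] (K : Subgroup G)
  [K.Normal] (k : Type) [LieRing k] [Finite k] (L : LExp K k), (∀ x : k, (p ^ N) • x = 0) →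
  ∀ a : AddSubgroup k, IsIdl a → (∀ x ∈ a, ∀ y ∈ a, ⁅x, y⁆ = 0) →
  (∀ g : G, ∀ x ∈ a, ∃ y ∈ a, g * (L.e x : G) * g⁻¹ = (L.e y : G)) →
  (∀ (V : Type) [AddCommGroup V] [Module ℂ V] [FiniteDimensional ℂ V] (ρ : Representation ℂ G V),
    ρ.IsIrreducible → ∃ ψ : k →+ ZMod (p ^ N),
      finrank ℂ V ^ 2 * Nat.card (rad ψ) ≤ K.index ^ 2 * Nat.card k) ∧
  (∀ φ : k →+ ZMod (p ^ N),
    (∀ g : G, (∀ x ∈ a, ∀ y ∈ a, g * (L.e x : G) * g⁻¹ = (L.e y : G) → φ y = φ x) → g ∈ K) →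
    ∃ (V : Type) (_ : AddCommGroup V) (_ : Module ℂ V) (_ : FiniteDimensional ℂ V)
      (ρ : Representation ℂ G V), ρ.IsIrreducible ∧
      K.index ^ 2 * Nat.card k ≤ finrank ℂ V ^ 2 * Nat.card (rad φ) ∧
      ∀ z ∈ a, φ z ≠ 0 → ρ (L.e z : G) ≠ 1)

end H2.KL
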