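import Pool.Agent.H2.KL.Stm2
import Pool.Agent.H6.NE.Stm2
import Pool.Agent.H6.NE.Stm3

/-!
# KL, glue between the Kirillov block (H2.KL) and the chain (H6.NE).
-/

set_option autoImplicit false

open Finset Module

namespace H2.KL

/-- LAZ (Lazard): a finite `p`-group `K` of class `≤ c < p` has a Lie structure, in which commuting
elements have bracket `0` and subgroups of `k` stable under `Ad (e x)` are stable under `ad x`. -/
def S_LAZ : Prop := ∀ (p N c : ℕ) [Fact p.Prime], 0 < N → 0 < c → c < p →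
  ∀ (K : Type) [Group K] [Finite K], H6.NE.lc K c = ⊥ → Nat.card K ∣ p ^ N →
  ∃ (k : Type) (_ : LieRing k) (_ : Finite k) (L : LExp K k), (∀ x : k, (p ^ N) • x = 0) ∧
    (∀ x y : k, L.e x * L.e y = L.e y * L.e x → ⁅x, y⁆ = 0) ∧
    (∀ (M : AddSubgroup k) (x : k), (∀ w ∈ M, L.Ad (L.e x) w ∈ M) → ∀ w ∈ M, ⁅x, w⁆ ∈ M)

/-- CLI (Clifford, lower bound): translates of an eigenvector of the normal subgroup `A` under
different cosets of the stabiliser `T` of its character belong to different characters. -/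
def S_CLI : Prop := ∀ (G : Type) [Group G] [Finite G] (T A : Subgroup G) [A.Normal]
  (V : Type) [AddCommGroup V] [Module ℂ V] [FiniteDimensional ℂ V]
  (ρ : Representation ℂ G V) (χ : G → ℂ) (w : V), w ≠ 0 → (∀ a ∈ A, ρ a w = χ a • w) →
  (∀ g : G, (∀ a ∈ A, χ (g⁻¹ * a * g) = χ a) → g ∈ T) → T.index ≤ finrank ℂ V

end H2.KL
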