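import Pool.Agent.H2.KL.GLU
import Pool.Agent.H2.KL.DUAL
import Pool.Agent.H12.KL.CLI
import Pool.Agent.H37.KL.End
import Pool.Agent.H37.KL.Orb
import Pool.Agent.H37.KL.Pen
import Pool.Agent.H37.KL.Span
import Pool.Agent.H54.KR.Mom
import Pool.Agent.H54.KR.Rep3
import Pool.Agent.H54.KR.Trace
import Pool.Agent.H54.KR.Vst
import Pool.Agent.H68.KL.CHAIN
import Pool.Agent.H68.KL.POL
import Pool.Agent.H68.KL.REP
import Pool.Agent.H99.KL.DIMGE
import Pool.Agent.H99.KL.EXI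
import Pool.Agent.H11.NE.EX
import Pool.Agent.H11.NE.LH
import Pool.Agent.H12.NE.ABN
import Pool.Agent.H31.NE.GRC
import Pool.Agent.H32.NE.Cnt
import Pool.Agent.H32.NE.Stc
import Pool.Agent.H32.NE.Stg
import Pool.Agent.H37.NE.Dua
import Pool.Agent.H37.NE.Msl
import Pool.Agent.H37.NE.Res
import Pool.Agent.H41.NE.INV
import Pool.Agent.H41.NE.MS
import Pool.Agent.H54.NE.LAY
import Pool.Agent.H54.NE.MOD
import Pool.Agent.H59.NE.LZ
import Pool.Agent.H6.NE.CLS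
import Pool.Agent.H6.NE.TT
import Pool.Agent.H61.NE.FR
import Pool.Agent.H61.NE.GR
import Pool.Agent.H62.NE.Mom
import Pool.Agent.H76.NE.KPU
import Pool.Agent.H76.NE.LEN
import Pool.Agent.H76.NE.NOD
import Pool.Agent.H76.NE.VDM
import Pool.Agent.H81.NE.PL
import Pool.Agent.H96.NE.CHN
import Pool.Agent.H97.NE.BND
import Pool.Agent.H97.NE.NIL
import Pool.Agent.H97.NE.NRM
import Pool.Agent.H42.NE.LEXb
import Pool.Agent.H70.LZ.SUB
import Pool.Agent.H12.LZ.Exp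
import Pool.Agent.H96.LZ.BCH
import Pool.Agent.H96.LZ.ODE

set_option autoImplicit false

namespace H2.KL

/-- Lazard -/
theorem laz : S_LAZ := by
  have hEXB := H12.LZ.t_EXB
  have hEXA := H12.LZ.t_EXA
  have hBCH := H96.LZ.t_BCH hEXB hEXA H96.LZ.t_ODE
  have hSUB := H70.LZ.t_SUB hEXB hBCH
  have hVDM := H76.NE.t_VDM
  have hNOD := H76.NE.t_NOD
  have hEX := H11.NE.t_EX
  have hTEI := H11.NE.t_TEI
  have hTT := H6.NE.t_TT hEX hTEI
  have hLH1 := H11.NE.t_LH1 hTT hVDM hNOD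
  have hLH2 := H11.NE.t_LH2 hTT hVDM hNOD
  have hGRC := H31.NE.t_GRC
  have hLZ := H59.NE.t_LZ (H61.NE.t_GR hGRC) hGRC H61.NE.t_FR
  exact H42.NE.t_LAZ hLZ hEX hLH1 hLH2 hVDM hNOD hSUB

/-- everything except STEP -/
theorem fin_of (hSTEP : H6.NE.S_STEP) : H6.NE.S_FIN := by
  have hLAZ := laz
  have hDUAL := H2.KL.t_DUAL
  have hCHAIN := H68.KL.t_CHAIN
  have hVST := H2.KL.t_VST hDUAL
  have hPOL := H68.KL.t_POL hCHAIN hVST
  have hORB := H37.KL.t_ORB hDUAL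
  have hMACK := H37.KL.t_MACK hDUAL hORB
  have hSPAN := H37.KL.t_SPAN hMACK
  have hTRACE := H2.KL.t_TRACE hDUAL hORB
  have hUP := H99.KL.t_UP
  have hDIMGE := H99.KL.t_DIMGE
  have hEXI := H99.KL.t_EXI
  have hREP := H68.KL.t_REP hTRACE hPOL hSPAN hUP hEXI hDIMGE
  have hREP3 := H54.KR.t_REP3 hPOL hSPAN hEXI
  have hPEN := H37.KL.t_PEN hPOL H54.KR.t_MOM
  have hEND := H37.KL.t_END hREP hREP3 hPEN hDUAL hPOL
  have hLEN := H76.NE.t_LEN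
  have hVDM := H76.NE.t_VDM
  have hNOD := H76.NE.t_NOD
  have hKPU := H76.NE.t_KPU hLEN
  have hAM := H62.NE.t_AM hLEN
  have hDEF := H62.NE.t_DEF hLEN
  have hPL := H81.NE.t_PL hNOD
  have hEX := H11.NE.t_EX
  have hTEI := H11.NE.t_TEI
  have hTT := H6.NE.t_TT hEX hTEI
  have hLH1 := H11.NE.t_LH1 hTT hVDM hNOD
  have hSTG := H32.NE.t_STG hEX hLH1
  have hSTC := H32.NE.t_STC hSTG hLH1
  have hNIL := H97.NE.t_NIL
  have hBND := H97.NE.t_BND hSTC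
  have hNRM := H97.NE.t_NRM hSTG hSTC
  have hCNT := H32.NE.t_CNT hKPU hBND
  have hSTA := H96.NE.t_STA
  have hNEX := H96.NE.t_NEX hPL hCNT hAM hBND
  have hCST := H96.NE.t_CST hNRM hNEX hSTEP hNIL
  have hCHN := H96.NE.t_CHN hSTA hCST hNIL hNRM
  have hLAY := H54.NE.t_LAY hLEN hNOD hAM hDEF hPL
  have hMOD := H54.NE.t_MOD hCHN hBND hCNT hLAY hNIL hSTG
  have hDUA := H37.NE.t_DUA hDUAL
  have hCLS := H6.NE.t_CLS hDUA
  exact t_GLU hEXI H12.KL.t_CLI hEND hLAZ hNOD hMOD H12.NE.t_ABN hDUA hCLS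

end H2.KL
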