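import Pool.Agent.H2.KL.Defs

set_option autoImplicit false

open Finset

namespace H2.KL

variable {K : Type} [Group K] {k : Type} [LieRing k] (L : LExp K k)

theorem bracket_mem_der {h : AddSubgroup k} {x y : k} (hx : x ∈ h) (hy : y ∈ h) : ⁅x, y⁆ ∈ der h :=
  AddSubgroup.subset_closure ⟨x, hx, y, hy, rfl⟩

theorem der_le {h : AddSubgroup k} (hh : IsSub h) : der h ≤ h := by
  unfold der
  rw [AddSubgroup.closure_le]
  rintro _ ⟨a, ha, b, hb, rfl⟩
  exact hh a ha b hb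

theorem map_der {h : AddSubgroup k} {q : ℕ} {φ : k →+ ZMod q} (hφ : ∀ x ∈ h, ∀ y ∈ h, φ ⁅x, y⁆ = 0)
    {w : k} (hw : w ∈ der h) : φ w = 0 := by
  have h1 : der h ≤ φ.ker := by
    unfold der
    rw [AddSubgroup.closure_le]
    rintro _ ⟨a, ha, b, hb, rfl⟩
    exact hφ a ha b hb
  exact h1 hw

theorem IsIdl.isSub {h : AddSubgroup k} (hh : IsIdl h) : IsSub h := fun x _ y hy => hh x y hy

theorem LExp.log_mul_mem {h : AddSubgroup k} (hh : IsSub h) {x y : k} (hx : x ∈ h) (hy : y ∈ h) :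
    L.e.symm (L.e x * L.e y) ∈ h := by
  have h1 := der_le hh (L.mul h hh x hx y hy)
  have h2 := add_mem (add_mem h1 hy) hx
  convert h2 using 1
  abel

/-- the subgroup `exp h` -/
def LExp.grp (h : AddSubgroup k) (hh : IsSub h) : Subgroup K where
  carrier := {g | L.e.symm g ∈ h}
  mul_mem' := by
    intro g g' hg hg'
    have := L.log_mul_mem hh hg hg'
    rwa [Equiv.apply_symm_apply, Equiv.apply_symm_apply] at this
  one_mem' := by
    change L.e.symm 1 ∈ h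
    rw [← L.e_zero, Equiv.symm_apply_apply]
    exact zero_mem _
  inv_mem' := by
    intro g hg
    change L.e.symm g⁻¹ ∈ h
    have h1 : L.e (-L.e.symm g) = g⁻¹ := by rw [L.e_neg, Equiv.apply_symm_apply]
    rw [← h1, Equiv.symm_apply_apply]
    exact neg_mem hg

theorem LExp.mem_grp {h : AddSubgroup k} {hh : IsSub h} {g : K} :
    g ∈ L.grp h hh ↔ L.e.symm g ∈ h := Iff.rfl

theorem LExp.e_mem_grp {h : AddSubgroup k} {hh : IsSub h} {x : k} :
    L.e x ∈ L.grp h hh ↔ x ∈ h := by rw [L.mem_grp, Equiv.symm_apply_apply]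

theorem LExp.Ad_mul (g g' : K) (x : k) : L.Ad (g * g') x = L.Ad g (L.Ad g' x) := by
  apply L.e.injective
  rw [L.e_Ad, L.e_Ad, L.e_Ad]
  group

theorem LExp.Ad_one (x : k) : L.Ad 1 x = x := by
  apply L.e.injective
  rw [L.e_Ad]
  group

theorem LExp.Ad_inv_Ad (g : K) (x : k) : L.Ad g⁻¹ (L.Ad g x) = x := by
  rw [← L.Ad_mul, inv_mul_cancel, L.Ad_one]

theorem LExp.Ad_Ad_inv (g : K) (x : k) : L.Ad g (L.Ad g⁻¹ x) = x := by
  rw [← L.Ad_mul, mul_inv_cancel, L.Ad_one]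

/-- `Ad (exp x) y ≡ y` modulo `[h, h]` for `x, y ∈ h` -/
theorem LExp.Ad_sub_mem {h : AddSubgroup k} (hh : IsSub h) {x y : k} (hx : x ∈ h) (hy : y ∈ h) :
    L.Ad (L.e x) y - y ∈ der h := by
  have h1 := L.mul h hh x hx y hy
  have h2 := L.log_mul_mem hh hx hy
  have h3 := L.mul h hh _ h2 (-x) (neg_mem hx)
  rw [Equiv.apply_symm_apply, L.e_neg] at h3
  have h4 : L.e.symm (L.e x * L.e y * (L.e x)⁻¹) = L.Ad (L.e x) y := by
    rw [← L.e_Ad, Equiv.symm_apply_apply]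
  rw [h4] at h3
  have h5 := add_mem h3 h1
  convert h5 using 1
  abel

theorem LExp.Ad_mem {h : AddSubgroup k} (hh : IsSub h) {x y : k} (hx : x ∈ h) (hy : y ∈ h) :
    L.Ad (L.e x) y ∈ h := by
  have h1 := add_mem (der_le hh (L.Ad_sub_mem hh hx hy)) hy
  convert h1 using 1
  abel

/-- the stabiliser of `φ` is `exp (rad φ)` -/
theorem LExp.stab_iff {q : ℕ} (φ : k →+ ZMod q) (x : k) :
    (∀ y, φ (L.Ad (L.e x) y) = φ y) ↔ x ∈ rad φ := by
  rw [mem_rad]
  constructor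
  · intro h y
    have : ⁅x, y⁆ ∈ Set.range (fun w => L.Ad (L.e x) w - w) := by
      rw [← L.range_ad]; exact ⟨y, rfl⟩
    obtain ⟨w, hw⟩ := this
    simp only at hw
    rw [← hw, map_sub, h w, sub_self]
  · intro h y
    have : L.Ad (L.e x) y - y ∈ Set.range (fun w => ⁅x, w⁆) := by
      rw [L.range_ad]; exact ⟨y, rfl⟩
    obtain ⟨w, hw⟩ := this
    simp only at hw
    have h1 := h w
    rw [hw, map_sub] at h1
    exact sub_eq_zero.mp h1

/-- the coadjoint translate `φ ∘ Ad g` -/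
def LExp.co {q : ℕ} (φ : k →+ ZMod q) (g : K) : k →+ ZMod q := φ.comp (L.Ad g)

theorem LExp.co_apply {q : ℕ} (φ : k →+ ZMod q) (g : K) (x : k) : L.co φ g x = φ (L.Ad g x) := rfl

end H2.KL
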