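import Pool.Agent.H2.KL.ALL

set_option autoImplicit false

open Finset Module

namespace H2.KL

theorem lc_le {K : Type} [Group K] (n : ℕ) :
    H6.NE.lc K n ≤ (⊤ : Subgroup K).lowerCentralSeries n := by
  induction n with
  | zero => exact le_top
  | succ n ih =>
    change Subgroup.closure _ ≤ _
    rw [Subgroup.closure_le]
    rintro _ ⟨a, ha, g, rfl⟩
    rw [Subgroup.lowerCentralSeries_succ]
    exact Subgroup.commutator_mem_commutator (ih ha) (Subgroup.mem_top g)

/-- a non-trivial normal subgroup of a finite `p`-group contains a non-trivial central element -/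
theorem exists_central {p : ℕ} [Fact p.Prime] {G : Type} [Group G] [Finite G] (hG : IsPGroup p G)
    (Nn : Subgroup G) [Nn.Normal] (hNbot : Nn ≠ ⊥) :
    ∃ z : G, z ∈ Nn ∧ z ∈ Subgroup.center G ∧ z ≠ 1 := by
  have hnt : Nontrivial Nn := (Subgroup.nontrivial_iff_ne_bot Nn).mpr hNbot
  let act : MulAction G Nn := MulAction.compHom Nn (MulAut.conjNormal (H := Nn))
  have hsm : ∀ (g : G) (n : Nn), ((g • n : Nn) : G) = g * (n : G) * g⁻¹ := fun g n => rfl
  have hdvd : p ∣ Nat.card Nn := by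
    obtain ⟨m, hm⟩ := IsPGroup.iff_card.mp (hG.to_subgroup Nn)
    rcases Nat.eq_zero_or_pos m with h | h
    · exfalso
      rw [h, pow_zero] at hm
      have h2 := (Nat.card_eq_one_iff_unique.mp hm).1
      exact not_subsingleton Nn h2
    · rw [hm]
      exact dvd_pow_self p h.ne'
  obtain ⟨b, hb, hb1⟩ := hG.exists_fixed_point_of_prime_dvd_card_of_fixed_point Nn hdvd
    (a := (1 : Nn)) (by
      intro g
      apply Subtype.ext
      rw [hsm]
      simp)
  refine ⟨b, b.2, ?_, fun h => hb1 (Subtype.ext h.symm)⟩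
  rw [Subgroup.mem_center_iff]
  intro g
  have h1 := congrArg Subtype.val (hb g)
  rw [hsm] at h1
  rw [mul_inv_eq_iff_eq_mul] at h1
  exact h1

/-- class `< p`, all `e < p` -/
theorem class_lt (p : ℕ) (hp : p.Prime) (G : Type) [Group G] [Finite G] (hG : IsPGroup p G)
    (hcl : (⊤ : Subgroup G).lowerCentralSeries (p - 1) = ⊥) (e : ℕ)
    (hex : ∃ (V : Type) (_ : AddCommGroup V) (_ : Module ℂ V) (_ : FiniteDimensional ℂ V)
      (rho : Representation ℂ G V), rho.IsIrreducible ∧ Module.finrank ℂ V = p ^ e)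
    (hmax : ∀ (V : Type) [AddCommGroup V] [Module ℂ V] [FiniteDimensional ℂ V]
      (rho : Representation ℂ G V), rho.IsIrreducible → Module.finrank ℂ V ≤ p ^ e)
    (he : e < p) (g : G)
    (hg : ∀ (V : Type) [AddCommGroup V] [Module ℂ V] [FiniteDimensional ℂ V]
      (rho : Representation ℂ G V), rho.IsIrreducible → Module.finrank ℂ V = p ^ e → rho g = 1) :
    g = 1 := by
  classical
  have : Fact p.Prime := ⟨hp⟩
  have hDUAL := H2.KL.t_DUAL
  have hCHAIN := H68.KL.t_CHAIN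
  have hVST := H2.KL.t_VST hDUAL
  have hPOL := H68.KL.t_POL hCHAIN hVST
  have hORB := H37.KL.t_ORB hDUAL
  have hMACK := H37.KL.t_MACK hDUAL hORB
  have hSPAN := H37.KL.t_SPAN hMACK
  have hTRACE := H2.KL.t_TRACE hDUAL hORB
  have hEXI := H99.KL.t_EXI
  have hREP := H68.KL.t_REP hTRACE hPOL hSPAN H99.KL.t_UP hEXI H99.KL.t_DIMGE
  have hREP3 := H54.KR.t_REP3 hPOL hSPAN hEXI
  have hPEN := H37.KL.t_PEN hPOL H54.KR.t_MOM
  by_contra hg1
  let Nn : Subgroup G :=
    { carrier := {g | ∀ (V : Type) [AddCommGroup V] [Module ℂ V] [FiniteDimensional ℂ V]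
        (rho : Representation ℂ G V), rho.IsIrreducible → Module.finrank ℂ V = p ^ e → rho g = 1}
      mul_mem' := by
        intro a b ha hb V _ _ _ rho h1 h2
        rw [map_mul, ha V rho h1 h2, hb V rho h1 h2, one_mul]
      one_mem' := by
        intro V _ _ _ rho h1 h2
        exact map_one rho
      inv_mem' := by
        intro a ha V _ _ _ rho h1 h2
        have h3 := ha V rho h1 h2
        have h4 : rho (a⁻¹ * a) = 1 := by rw [inv_mul_cancel, map_one]
        rw [map_mul, h3, mul_one] at h4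
        exact h4 }
  have hNn : Nn.Normal := by
    refine ⟨fun a ha b V _ _ _ rho h1 h2 => ?_⟩
    rw [map_mul, map_mul, ha V rho h1 h2, mul_one, ← map_mul, mul_inv_cancel, map_one]
  have hNbot : Nn ≠ ⊥ := by
    intro h
    have h1 : g ∈ Nn := hg
    rw [h, Subgroup.mem_bot] at h1
    exact hg1 h1
  obtain ⟨z, hzN, hzc, hz1⟩ := exists_central hG Nn hNbot
  obtain ⟨N, hN⟩ := IsPGroup.iff_card.mp hG
  have hN0 : 0 < N := by
    rcases Nat.eq_zero_or_pos N with h | h
    · exfalso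
      rw [h, pow_zero] at hN
      have : Subsingleton G := (Nat.card_eq_one_iff_unique.mp hN).1
      exact hz1 (Subsingleton.elim _ _)
    · exact h
  have hq : NeZero (p ^ N) := ⟨pow_ne_zero _ hp.ne_zero⟩
  have hlc : H6.NE.lc (⊤ : Subgroup G) (p - 1) = ⊥ := by
    rw [eq_bot_iff]
    refine (lc_le _).trans ?_
    intro x hx
    have h1 : (x : G) ∈ ((⊤ : Subgroup (⊤ : Subgroup G)).lowerCentralSeries (p - 1)).map
        (⊤ : Subgroup G).subtype := ⟨x, hx, rfl⟩
    rw [Subgroup.top_subtype_lowerCentralSeries, hcl, Subgroup.mem_bot] at h1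
    rw [Subgroup.mem_bot]
    exact Subtype.ext h1
  have hp2 : 2 ≤ p := hp.two_le
  obtain ⟨k, ik, ikf, L, hk, hcomm, hinv⟩ := laz p N (p - 1) hN0 (by omega) (by omega)
    (⊤ : Subgroup G) hlc (hN ▸ Subgroup.card_subgroup_dvd_card (⊤ : Subgroup G))
  have hcab : ∀ a ∈ Subgroup.center G, ∀ b ∈ Subgroup.center G, a * b = b * a :=
    fun a ha b _ => (Subgroup.mem_center_iff.mp ha b).symm
  let a := logA L (Subgroup.center G) hcab hcomm
  obtain ⟨hR1, hR2⟩ := hREP p N G ⊤ k L hk a (logA_idl L hinv) (logA_lie L)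
    (fun g x hx => logA_conj L le_top g x hx)
  have : Finite (k →+ ZMod (p ^ N)) := DFunLike.finite _
  -- minimal radical
  obtain ⟨u2, hu2⟩ := Finite.exists_min (fun φ : k →+ ZMod (p ^ N) => Nat.card (rad φ))
  obtain ⟨E, hE⟩ := H37.KL.card_rad hPOL hk L.nil u2
  have hEmax : ∀ φ : k →+ ZMod (p ^ N), Nat.card k ≤ p ^ (2 * E) * Nat.card (rad φ) := by
    intro φ
    rw [hE]
    exact Nat.mul_le_mul_left _ (hu2 φ)
  have hEe : E ≤ e := by
    obtain ⟨V, i1, i2, i3, ρ, hirr, hV⟩ := hREP3 p N G ⊤ k L hk u2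
    have h1 := hmax V ρ hirr
    rw [hE] at hV
    have h2 := Nat.le_of_mul_le_mul_right hV Nat.card_pos
    have h3 : p ^ (2 * E) ≤ p ^ (2 * e) := by
      calc p ^ (2 * E) ≤ finrank ℂ V ^ 2 := h2
        _ ≤ (p ^ e) ^ 2 := Nat.pow_le_pow_left h1 2
        _ = p ^ (2 * e) := by rw [← pow_mul, mul_comm]
    have h4 := (Nat.pow_le_pow_iff_right hp.one_lt).1 h3
    omega
  have heE : e ≤ E := by
    obtain ⟨V, i1, i2, i3, ρ, hirr, hV⟩ := hex
    obtain ⟨ψ, hψ⟩ := hR1 V ρ hirr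
    rw [hV, Subgroup.index_top, one_pow, one_mul] at hψ
    have h1 := hψ.trans (hEmax ψ)
    have h2 := Nat.le_of_mul_le_mul_right h1 Nat.card_pos
    rw [← pow_mul] at h2
    have h3 := (Nat.pow_le_pow_iff_right hp.one_lt).1 h2
    omega
  have hEeq : E = e := le_antisymm hEe heE
  have hza : L.e.symm ⟨z, Subgroup.mem_top z⟩ ∈ a := by
    change (L.e (L.e.symm ⟨z, Subgroup.mem_top z⟩) : G) ∈ Subgroup.center G
    rw [Equiv.apply_symm_apply]
    exact hzc
  have hz0 : L.e.symm ⟨z, Subgroup.mem_top z⟩ ≠ 0 := by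
    intro h
    have h1 := L.e_zero
    rw [← h, Equiv.apply_symm_apply] at h1
    exact hz1 (congrArg Subtype.val h1)
  obtain ⟨φ, hφ, hφz⟩ : ∃ φ : k →+ ZMod (p ^ N), Nat.card k = p ^ (2 * E) * Nat.card (rad φ) ∧
      φ (L.e.symm ⟨z, Subgroup.mem_top z⟩) ≠ 0 := by
    by_cases huz : u2 (L.e.symm ⟨z, Subgroup.mem_top z⟩) = 0
    · obtain ⟨ψ, hψ⟩ := (hDUAL (p ^ N) k hk).2.1 _ hz0
      let S : Finset ℕ := (range p).filter
        (fun s => Nat.card k < p ^ (2 * E) * Nat.card (rad (ψ + s • u2)))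
      have hS := hPEN p N k hk L.nil E hEmax ψ u2 hE S (by
        intro s hs s' hs' hne hc
        have h4 := Finset.mem_range.1 (Finset.mem_filter.1 hs).1
        have h5 := Finset.mem_range.1 (Finset.mem_filter.1 hs').1
        exact hne (Nat.ModEq.eq_of_lt_of_lt hc h4 h5)) (fun s hs => (Finset.mem_filter.1 hs).2)
      obtain ⟨s, hs, -, hsS⟩ := H37.KL.exists_out (range p) ∅ S 0 E (by simp) hS (by
        rw [Finset.card_range]; omega)
      refine ⟨ψ + s • u2, ?_, ?_⟩
      · apply le_antisymm (hEmax _)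
        by_contra hc
        exact hsS (Finset.mem_filter.2 ⟨hs, not_le.1 hc⟩)
      · rw [AddMonoidHom.add_apply, AddMonoidHom.smul_apply, huz, smul_zero, add_zero]
        exact hψ
    · exact ⟨u2, hE, huz⟩
  obtain ⟨V, i1, i2, i3, ρ, hirr, hV, hρ⟩ := hR2 φ (fun g _ => Subgroup.mem_top g)
  rw [Subgroup.index_top, one_pow, one_mul, hφ] at hV
  have h2 := Nat.le_of_mul_le_mul_right hV Nat.card_pos
  rw [hEeq, mul_comm 2 e, pow_mul] at h2
  have h3 : p ^ e ≤ finrank ℂ V := (Nat.pow_le_pow_iff_left two_ne_zero).mp h2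
  have h4 : finrank ℂ V = p ^ e := le_antisymm (hmax V ρ hirr) h3
  have h5 := hρ _ hza hφz
  rw [Equiv.apply_symm_apply] at h5
  exact h5 (hzN V ρ hirr h4)

end H2.KL
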