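import Mathlib

/-!
# KL, representation block (MP_895f30, all p-groups, 2e < p)

`LExp K k`: a Lie structure on the finite group `K`: a bijection `e : k ≃ K` from a nilpotent Lie
ring `k` with the few consequences of the Baker-Campbell-Hausdorff formula that Kirillov's method needs.
Functionals are additive maps `φ : k →+ ZMod q`, `q` a power of `p` that kills `k`.
-/

set_option autoImplicit false

open Finset

namespace H2.KL

/-- lower central series of a Lie ring, as additive subgroups -/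
def lcs (k : Type) [LieRing k] : ℕ → AddSubgroup k
  | 0 => ⊤
  | n + 1 => AddSubgroup.closure {w | ∃ a : k, ∃ b ∈ lcs k n, w = ⁅a, b⁆}

/-- `h` is closed under brackets -/
def IsSub {k : Type} [LieRing k] (h : AddSubgroup k) : Prop := ∀ x ∈ h, ∀ y ∈ h, ⁅x, y⁆ ∈ h

/-- `h` is an ideal -/
def IsIdl {k : Type} [LieRing k] (h : AddSubgroup k) : Prop := ∀ x : k, ∀ y ∈ h, ⁅x, y⁆ ∈ h

/-- additive span of the brackets of elements of `h` -/
def der {k : Type} [LieRing k] (h : AddSubgroup k) : AddSubgroup k :=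
  AddSubgroup.closure {w | ∃ a ∈ h, ∃ b ∈ h, w = ⁅a, b⁆}

/-- Lie structure on a group -/
structure LExp (K : Type) [Group K] (k : Type) [LieRing k] where
  e : k ≃ K
  Ad : K → (k →+ k)
  e_zero : e 0 = 1
  e_neg : ∀ x, e (-x) = (e x)⁻¹
  e_Ad : ∀ g x, e (Ad g x) = g * e x * g⁻¹
  /-- for every subring `h` and `x, y ∈ h`: `log (e x * e y) ≡ x + y` modulo `[h, h]` -/
  mul : ∀ h : AddSubgroup k, IsSub h → ∀ x ∈ h, ∀ y ∈ h, e.symm (e x * e y) - x - y ∈ der h
  /-- `ad x` and `Ad (e x) - 1` have the same range -/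
  range_ad : ∀ x, Set.range (fun w => ⁅x, w⁆) = Set.range (fun w => Ad (e x) w - w)
  nil : ∃ n, lcs k n = ⊥

/-- radical of the form `φ ⁅x, y⁆` -/
def rad {k : Type} [LieRing k] {q : ℕ} (φ : k →+ ZMod q) : AddSubgroup k where
  carrier := {x | ∀ y, φ ⁅x, y⁆ = 0}
  add_mem' := by
    intro x y hx hy w
    simp only [Set.mem_setOf_eq] at *
    rw [add_lie, map_add, hx, hy, add_zero]
  zero_mem' := by intro y; simp
  neg_mem' := by
    intro x hx w
    simp only [Set.mem_setOf_eq] at *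
    rw [neg_lie, map_neg, hx, neg_zero]

theorem mem_rad {k : Type} [LieRing k] {q : ℕ} {φ : k →+ ZMod q} {x : k} :
    x ∈ rad φ ↔ ∀ y, φ ⁅x, y⁆ = 0 := Iff.rfl

/-- radical of the restriction of the form to `m` -/
def radIn {k : Type} [LieRing k] {q : ℕ} (φ : k →+ ZMod q) (m : AddSubgroup k) : AddSubgroup k where
  carrier := {x | x ∈ m ∧ ∀ y ∈ m, φ ⁅x, y⁆ = 0}
  add_mem' := by
    rintro x y ⟨hx, hx'⟩ ⟨hy, hy'⟩
    exact ⟨add_mem hx hy, fun w hw => by rw [add_lie, map_add, hx' w hw, hy' w hw, add_zero]⟩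
  zero_mem' := ⟨zero_mem _, fun w _ => by simp⟩
  neg_mem' := by
    rintro x ⟨hx, hx'⟩
    exact ⟨neg_mem hx, fun w hw => by rw [neg_lie, map_neg, hx' w hw, neg_zero]⟩

theorem mem_radIn {k : Type} [LieRing k] {q : ℕ} {φ : k →+ ZMod q} {m : AddSubgroup k} {x : k} :
    x ∈ radIn φ m ↔ x ∈ m ∧ ∀ y ∈ m, φ ⁅x, y⁆ = 0 := Iff.rfl

/-- `h` is a polarization of `φ` -/
structure IsPol {k : Type} [LieRing k] {q : ℕ} (φ : k →+ ZMod q) (h : AddSubgroup k) : Prop where
  sub : IsSub h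
  iso : ∀ x ∈ h, ∀ y ∈ h, φ ⁅x, y⁆ = 0
  rad_le : rad φ ≤ h
  card : Nat.card h ^ 2 = Nat.card k * Nat.card (rad φ)

/-- `w` is an eigenvector of `exp h` with character `φ`; `ι` maps the group with the Lie structure to
the group that acts (the identity, or the inclusion of a subgroup) -/
def IsEig {K G V k : Type} [Group K] [Group G] [LieRing k] [AddCommGroup V] [Module ℂ V] {q : ℕ}
    [NeZero q] (L : LExp K k) (ι : K →* G) (ρ : Representation ℂ G V) (φ : k →+ ZMod q)
    (h : AddSubgroup k) (w : V) : Prop :=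
  ∀ x ∈ h, ρ (ι (L.e x)) w = (ZMod.stdAddChar (N := q) (φ x) : ℂ) • w

end H2.KL
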