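import Pool.Agent.H2.KL.ALL
import Pool.Agent.H59.NE.STEP

/-!
# The final assembly: `N_e(G) = 1` for every finite `p`-group whose largest character degree is
`p^e` with `2 e < p`.
-/

set_option autoImplicit false

namespace H2.KL

theorem fin : H6.NE.S_FIN := by
  have hLEN := H76.NE.t_LEN
  have hVDM := H76.NE.t_VDM
  have hNOD := H76.NE.t_NOD
  have hKPU := H76.NE.t_KPU hLEN
  have hDEF := H62.NE.t_DEF hLEN
  have hMSL := H37.NE.t_MSL hLEN hVDM
  have hMS := H41.NE.t_MS hLEN hVDM hDEF hMSL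
  have hEX := H11.NE.t_EX
  have hTEI := H11.NE.t_TEI
  have hTT := H6.NE.t_TT hEX hTEI
  have hLH1 := H11.NE.t_LH1 hTT hVDM hNOD
  have hSTG := H32.NE.t_STG hEX hLH1
  have hSTC := H32.NE.t_STC hSTG hLH1
  have hNIL := H97.NE.t_NIL
  have hBND := H97.NE.t_BND hSTC
  have hNRM := H97.NE.t_NRM hSTG hSTC
  have hCNT := H32.NE.t_CNT hKPU hBND
  have hRES := H37.NE.t_RES hSTG
  exact fin_of (H59.NE.t_STEP hMS hRES hSTC hSTG hNRM hCNT hBND hNOD hLEN hNIL)

end H2.KL
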