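import Pool.Agent.H2.KL.Stm3

set_option autoImplicit false

open Finset Module

namespace H2.KL

section alg
variable {G : Type} [Group G] {K : Subgroup G} {k : Type} [LieRing k] (L : LExp K k)

/-- commuting elements: `e (x + y) = e x * e y` -/
theorem e_add_of_comm (hcomm : ∀ x y : k, L.e x * L.e y = L.e y * L.e x → ⁅x, y⁆ = 0) {x y : k}
    (h : L.e x * L.e y = L.e y * L.e x) : L.e (x + y) = L.e x * L.e y := by
  have hxy := hcomm x y h
  have hyx : ⁅y, x⁆ = 0 := by rw [← lie_skew, hxy, neg_zero]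
  let H : AddSubgroup k := AddSubgroup.closure {x, y}
  have hz : ∀ u ∈ H, ∀ v ∈ H, ⁅u, v⁆ = 0 := by
    intro u hu v hv
    induction hu using AddSubgroup.closure_induction with
    | mem u hu =>
      induction hv using AddSubgroup.closure_induction with
      | mem v hv =>
        rcases hu with rfl | rfl <;> rcases hv with rfl | rfl
        · exact lie_self _
        · exact hxy
        · exact hyx
        · exact lie_self _
      | zero => exact lie_zero _
      | add a b _ _ ha hb => rw [lie_add, ha, hb, add_zero]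
      | neg a _ ha => rw [lie_neg, ha, neg_zero]
    | zero => exact zero_lie _
    | add a b _ _ ha hb => rw [add_lie, ha, hb, add_zero]
    | neg a _ ha => rw [neg_lie, ha, neg_zero]
  have hsub : IsSub H := fun u hu v hv => by rw [hz u hu v hv]; exact zero_mem _
  have hx : x ∈ H := AddSubgroup.subset_closure (by simp)
  have hy : y ∈ H := AddSubgroup.subset_closure (by simp)
  have h1 := L.mul H hsub x hx y hy
  have h2 : der H = ⊥ := by
    unfold der
    rw [AddSubgroup.closure_eq_bot_iff]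
    rintro _ ⟨a, ha, b, hb, rfl⟩
    exact hz a ha b hb
  rw [h2, AddSubgroup.mem_bot] at h1
  have h3 : L.e.symm (L.e x * L.e y) = x + y := by
    rw [sub_sub] at h1
    exact sub_eq_zero.mp h1
  rw [← h3, Equiv.apply_symm_apply]

/-- `log A` -/
def logA (A : Subgroup G) (hA : ∀ a ∈ A, ∀ b ∈ A, a * b = b * a)
    (hcomm : ∀ x y : k, L.e x * L.e y = L.e y * L.e x → ⁅x, y⁆ = 0) : AddSubgroup k where
  carrier := {x | (L.e x : G) ∈ A}
  add_mem' := by
    intro x y hx hy
    change (L.e (x + y) : G) ∈ A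
    rw [e_add_of_comm L hcomm (Subtype.ext (hA _ hx _ hy)), Subgroup.coe_mul]
    exact mul_mem hx hy
  zero_mem' := by
    change (L.e 0 : G) ∈ A
    rw [L.e_zero]
    exact one_mem _
  neg_mem' := by
    intro x hx
    change (L.e (-x) : G) ∈ A
    rw [L.e_neg]
    exact inv_mem hx

variable {A : Subgroup G} {hA : ∀ a ∈ A, ∀ b ∈ A, a * b = b * a}
  {hcomm : ∀ x y : k, L.e x * L.e y = L.e y * L.e x → ⁅x, y⁆ = 0}

theorem mem_logA {x : k} : x ∈ logA L A hA hcomm ↔ (L.e x : G) ∈ A := Iff.rfl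

theorem logA_lie (x : k) (hx : x ∈ logA L A hA hcomm) (y : k) (hy : y ∈ logA L A hA hcomm) :
    ⁅x, y⁆ = 0 := hcomm x y (Subtype.ext (hA _ hx _ hy))

theorem logA_add (x : k) (hx : x ∈ logA L A hA hcomm) (y : k) (hy : y ∈ logA L A hA hcomm) :
    L.e (x + y) = L.e x * L.e y := e_add_of_comm L hcomm (Subtype.ext (hA _ hx _ hy))

theorem logA_idl [A.Normal]
    (hinv : ∀ (M : AddSubgroup k) (x : k), (∀ w ∈ M, L.Ad (L.e x) w ∈ M) → ∀ w ∈ M, ⁅x, w⁆ ∈ M) :
    IsIdl (logA L A hA hcomm) := by
  intro x y hy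
  refine hinv _ x (fun w hw => ?_) y hy
  rw [mem_logA, L.e_Ad]
  exact Subgroup.Normal.conj_mem inferInstance _ hw _

theorem logA_conj [A.Normal] (hAK : A ≤ K) (g : G) (x : k) (hx : x ∈ logA L A hA hcomm) :
    ∃ y ∈ logA L A hA hcomm, g * (L.e x : G) * g⁻¹ = (L.e y : G) := by
  have h1 : g * (L.e x : G) * g⁻¹ ∈ A := Subgroup.Normal.conj_mem inferInstance _ hx _
  refine ⟨L.e.symm ⟨_, hAK h1⟩, ?_, ?_⟩
  · rw [mem_logA, Equiv.apply_symm_apply]
    exact h1
  · rw [Equiv.apply_symm_apply]

/-- `log A ≃ A` -/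
noncomputable def logEquiv (hAK : A ≤ K) : logA L A hA hcomm ≃+ Additive A where
  toFun x := Additive.ofMul ⟨(L.e x : G), x.2⟩
  invFun a := ⟨L.e.symm ⟨(a.toMul : G), hAK a.toMul.2⟩, by
    rw [mem_logA, Equiv.apply_symm_apply]; exact a.toMul.2⟩
  left_inv x := by
    apply Subtype.ext
    exact L.e.symm_apply_apply x
  right_inv a := by
    apply Additive.toMul.injective
    apply Subtype.ext
    change ((L.e (L.e.symm ⟨(a.toMul : G), hAK a.toMul.2⟩) : K) : G) = _
    rw [Equiv.apply_symm_apply]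
  map_add' x y := by
    apply Additive.toMul.injective
    apply Subtype.ext
    change ((L.e ((x : k) + (y : k)) : K) : G) = (L.e x : G) * (L.e y : G)
    rw [logA_add L x x.2 y y.2]
    rfl

theorem logEquiv_apply (hAK : A ≤ K) (x : logA L A hA hcomm) :
    (((logEquiv L hAK x).toMul : A) : G) = (L.e (x : k) : G) := rfl

end alg

section dl
variable {p N : ℕ} {G : Type} [Group G] {A : Subgroup G} [A.Normal]

theorem dr_apply (g : G) (x : H6.NE.Dl p N A) (a : A) :
    H6.NE.dr p N A g x (Additive.ofMul a) =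
      x (Additive.ofMul (MulAut.conjNormal (H := A) g⁻¹ a)) := rfl

theorem dr_eq_iff (g : G) (x : H6.NE.Dl p N A) :
    H6.NE.dr p N A g x = x ↔ ∀ a b : A, g * (a : G) * g⁻¹ = (b : G) →
      x (Additive.ofMul b) = x (Additive.ofMul a) := by
  constructor
  · intro h a b hab
    have h1 := DFunLike.congr_fun h (Additive.ofMul b)
    rw [dr_apply] at h1
    rw [← h1]
    congr 2
    apply Subtype.ext
    rw [MulAut.conjNormal_apply, ← hab]
    group
  · intro h
    apply AddMonoidHom.ext
    intro b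
    change H6.NE.dr p N A g x (Additive.ofMul b.toMul) = x (Additive.ofMul b.toMul)
    rw [dr_apply]
    symm
    apply h
    rw [MulAut.conjNormal_apply]
    group

theorem std_ne_zero {q : ℕ} [NeZero q] (a : ZMod q) : (ZMod.stdAddChar (N := q) a : ℂ) ≠ 0 := by
  intro h
  have h1 : (ZMod.stdAddChar (N := q) (a + -a) : ℂ) = 0 := by
    rw [AddChar.map_add_eq_mul, h, zero_mul]
  rw [add_neg_cancel, AddChar.map_zero_eq_one] at h1
  exact one_ne_zero h1

theorem std_eq_one {q : ℕ} [NeZero q] {a : ZMod q} (h : (ZMod.stdAddChar (N := q) a : ℂ) = 1) :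
    a = 0 := by
  apply ZMod.injective_stdAddChar
  rw [h, AddChar.map_zero_eq_one]

/-- the linear character of `A` given by `x` -/
noncomputable def lamOf [NeZero (p ^ N)] (x : H6.NE.Dl p N A) : A →* ℂˣ where
  toFun a := Units.mk0 (ZMod.stdAddChar (N := p ^ N) (x (Additive.ofMul a)) : ℂ) (std_ne_zero _)
  map_one' := by
    apply Units.ext
    rw [Units.val_mk0, ofMul_one, map_zero, AddChar.map_zero_eq_one, Units.val_one]
  map_mul' a b := by
    apply Units.ext
    rw [Units.val_mk0, ofMul_mul, map_add, AddChar.map_add_eq_mul]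
    rfl

theorem lamOf_apply [NeZero (p ^ N)] (x : H6.NE.Dl p N A) (a : A) :
    ((lamOf x a : ℂˣ) : ℂ) = ZMod.stdAddChar (N := p ^ N) (x (Additive.ofMul a)) := rfl

open Classical in
/-- over every functional of `A` there is an irreducible representation; its dimension is at least the
index of the stabiliser -/
theorem exi_dl (hEXI : S_EXI) (hCLI : S_CLI) [Finite G] [NeZero (p ^ N)] (x : H6.NE.Dl p N A) :
    ∃ (V : Type) (_ : AddCommGroup V) (_ : Module ℂ V) (_ : FiniteDimensional ℂ V)
      (ρ : Representation ℂ G V) (w : V), ρ.IsIrreducible ∧ w ≠ 0 ∧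
      (∀ a : A, ρ (a : G) w =
        (ZMod.stdAddChar (N := p ^ N) (x (Additive.ofMul a)) : ℂ) • w) ∧
      (H6.NE.stb (H6.NE.dr p N A) x).index ≤ finrank ℂ V := by
  obtain ⟨V, i1, i2, i3, ρ, w, hirr, hw, hw2⟩ := hEXI G A (lamOf x)
  refine ⟨V, i1, i2, i3, ρ, w, hirr, hw, fun a => by rw [hw2 a, lamOf_apply], ?_⟩
  let χ : G → ℂ := fun g => if hg : g ∈ A then
    (ZMod.stdAddChar (N := p ^ N) (x (Additive.ofMul ⟨g, hg⟩)) : ℂ) else 0
  refine hCLI G (H6.NE.stb (H6.NE.dr p N A) x) A V ρ χ w hw ?_ ?_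
  · intro a ha
    simp only [χ, dif_pos ha]
    exact hw2 ⟨a, ha⟩
  · intro g hg
    change H6.NE.dr p N A g x = x
    rw [dr_eq_iff]
    intro a b hab
    have h1 := hg b b.2
    have h2 : g⁻¹ * (b : G) * g = (a : G) := by rw [← hab]; group
    simp only [χ] at h1
    have h3 : g⁻¹ * (b : G) * g ∈ A := by rw [h2]; exact a.2
    rw [dif_pos h3, dif_pos b.2] at h1
    have h4 := ZMod.injective_stdAddChar h1
    have h5 : (⟨g⁻¹ * (b : G) * g, h3⟩ : A) = a := Subtype.ext h2
    rw [h5] at h4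
    exact h4.symm

end dl

/-- the case `r = e` (and `e = 0`): a functional with `x z ≠ 0` and a large orbit -/
theorem large_orbit (hEXI : S_EXI) (hCLI : S_CLI) {p N e : ℕ} [Fact p.Prime] [NeZero (p ^ N)]
    {G : Type} [Group G] [Finite G] {A : Subgroup G} [A.Normal]
    (hmax : ∀ (V : Type) [AddCommGroup V] [Module ℂ V] [FiniteDimensional ℂ V]
      (rho : Representation ℂ G V), rho.IsIrreducible → Module.finrank ℂ V ≤ p ^ e)
    (x : H6.NE.Dl p N A) (z : A) (hz : x (Additive.ofMul z) ≠ 0)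
    (hx : p ^ e ≤ (H6.NE.stb (H6.NE.dr p N A) x).index) :
    ∃ (V : Type) (_ : AddCommGroup V) (_ : Module ℂ V) (_ : FiniteDimensional ℂ V)
      (ρ : Representation ℂ G V), ρ.IsIrreducible ∧ finrank ℂ V = p ^ e ∧ ρ (z : G) ≠ 1 := by
  obtain ⟨V, i1, i2, i3, ρ, w, hirr, hw, hw2, hdim⟩ := exi_dl hEXI hCLI x
  refine ⟨V, i1, i2, i3, ρ, hirr, le_antisymm (hmax V ρ hirr) (hx.trans hdim), fun h => ?_⟩
  have h1 := hw2 z
  rw [h, Module.End.one_apply] at h1
  have h2 : ((ZMod.stdAddChar (N := p ^ N) (x (Additive.ofMul z)) : ℂ) - 1) • w = 0 := by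
    rw [sub_smul, one_smul, ← h1, sub_self]
  rcases smul_eq_zero.mp h2 with h3 | h3
  · exact hz (std_eq_one (sub_eq_zero.mp h3))
  · exact hw h3

theorem t_GLU (hEXI : S_EXI) (hCLI : S_CLI) (hEND : S_END) (hLAZ : S_LAZ)
    (hNOD : H6.NE.S_NOD) (hMOD : H6.NE.S_MOD) (hABN : H6.NE.S_ABN) (hDUA : H6.NE.S_DUA)
    (hCLS : H6.NE.S_CLS) : H6.NE.S_FIN := by
  intro p hp G _ _ hG e hex hmax he g hg
  have : Fact p.Prime := ⟨hp⟩
  by_contra hg1
  -- the kernel
  let Nn : Subgroup G :=
    { carrier := {g | ∀ (V : Type) [AddCommGroup V] [Module ℂ V] [FiniteDimensional ℂ V]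
        (rho : Representation ℂ G V), rho.IsIrreducible → Module.finrank ℂ V = p ^ e → rho g = 1}
      mul_mem' := by
        intro a b ha hb V _ _ _ rho h1 h2
        rw [map_mul, ha V rho h1 h2, hb V rho h1 h2, one_mul]
      one_mem' := by
        intro V _ _ _ rho h1 h2
        exact map_one rho
      inv_mem' := by
        intro a ha V _ _ _ rho h1 h2
        have h3 := ha V rho h1 h2
        have h4 : rho (a⁻¹ * a) = 1 := by rw [inv_mul_cancel, map_one]
        rw [map_mul, h3, mul_one] at h4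
        exact h4 }
  have hNn : Nn.Normal := by
    refine ⟨fun a ha b V _ _ _ rho h1 h2 => ?_⟩
    rw [map_mul, map_mul, ha V rho h1 h2, mul_one, ← map_mul, mul_inv_cancel, map_one]
  have hNbot : Nn ≠ ⊥ := by
    intro h
    have h1 : g ∈ Nn := hg
    rw [h, Subgroup.mem_bot] at h1
    exact hg1 h1
  -- a central element
  obtain ⟨z, hzN, hzc, hz1⟩ : ∃ z : G, z ∈ Nn ∧ z ∈ Subgroup.center G ∧ z ≠ 1 := by
    have hnt : Nontrivial Nn := (Subgroup.nontrivial_iff_ne_bot Nn).mpr hNbot
    letI act : MulAction G Nn := MulAction.compHom Nn (MulAut.conjNormal (H := Nn))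
    have hsm : ∀ (g : G) (n : Nn), ((g • n : Nn) : G) = g * (n : G) * g⁻¹ := fun g n => rfl
    have hdvd : p ∣ Nat.card Nn := by
      obtain ⟨m, hm⟩ := IsPGroup.iff_card.mp (hG.to_subgroup Nn)
      rcases Nat.eq_zero_or_pos m with h | h
      · exfalso
        rw [h, pow_zero] at hm
        have h2 := (Nat.card_eq_one_iff_unique.mp hm).1
        exact not_subsingleton Nn h2
      · rw [hm]
        exact dvd_pow_self p h.ne'
    obtain ⟨b, hb, hb1⟩ := hG.exists_fixed_point_of_prime_dvd_card_of_fixed_point Nn hdvd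
      (a := (1 : Nn)) (by
        intro g
        apply Subtype.ext
        rw [hsm]
        simp)
    refine ⟨b, b.2, ?_, fun h => hb1 (Subtype.ext h.symm)⟩
    rw [Subgroup.mem_center_iff]
    intro g
    have h1 := congrArg Subtype.val (hb g)
    rw [hsm] at h1
    rw [mul_inv_eq_iff_eq_mul] at h1
    exact h1
  obtain ⟨A, hAn, hAab, hAc⟩ := hABN p G hG
  have hzA : z ∈ A := hAc z (fun a _ => (Subgroup.mem_center_iff.mp hzc a).symm)
  obtain ⟨N, hN⟩ := IsPGroup.iff_card.mp hG
  have hN0 : 0 < N := by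
    rcases Nat.eq_zero_or_pos N with h | h
    · exfalso
      rw [h, pow_zero] at hN
      have : Subsingleton G := (Nat.card_eq_one_iff_unique.mp hN).1
      exact hz1 (Subsingleton.elim _ _)
    · exact h
  have hq : NeZero (p ^ N) := ⟨pow_ne_zero _ hp.ne_zero⟩
  have hcardA : Nat.card A ∣ p ^ N := hN ▸ Subgroup.card_subgroup_dvd_card A
  obtain ⟨hfin, hsep, -, -, -⟩ := hDUA p N hN0 G A hAab hcardA
  let zA : A := ⟨z, hzA⟩
  have hzA1 : zA ≠ 1 := fun h => hz1 (congrArg Subtype.val h)
  -- it suffices to find a representation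
  suffices h : ∃ (V : Type) (_ : AddCommGroup V) (_ : Module ℂ V) (_ : FiniteDimensional ℂ V)
      (ρ : Representation ℂ G V), ρ.IsIrreducible ∧ finrank ℂ V = p ^ e ∧ ρ z ≠ 1 by
    obtain ⟨V, i1, i2, i3, ρ, h1, h2, h3⟩ := h
    exact h3 (hzN V ρ h1 h2)
  obtain ⟨x0, hx0⟩ := hsep (Additive.ofMul zA) (by
    intro h; exact hzA1 (by simpa using h))
  rcases Nat.eq_zero_or_pos e with rfl | he0
  · exact large_orbit hEXI hCLI hmax x0 zA hx0 (by
      rw [pow_zero]; exact Nat.one_le_iff_ne_zero.mpr Subgroup.index_ne_zero_of_finite)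
  have hp2 : 2 < p := by omega
  have hidx : ∀ v : H6.NE.Dl p N A, ∃ j, (H6.NE.stb (H6.NE.dr p N A) v).index = p ^ j := by
    intro v
    obtain ⟨j, -, hj⟩ := (Nat.dvd_prime_pow hp).mp
      (hN ▸ Subgroup.index_dvd_card (H6.NE.stb (H6.NE.dr p N A) v))
    exact ⟨j, hj⟩
  have horb : H6.NE.Orb (H6.NE.dr p N A) e := by
    intro v
    obtain ⟨j, hj⟩ := hidx v
    obtain ⟨V, i1, i2, i3, ρ, w, hirr, -, -, hdim⟩ := exi_dl hEXI hCLI v
    have h1 := hdim.trans (hmax V ρ hirr)
    rw [hj] at h1 ⊢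
    rw [Nat.factorization_pow, hp.factorization]
    have := (Nat.pow_le_pow_iff_right hp.one_lt).mp h1
    simpa using this
  obtain ⟨K, Gd, r, hKn, ⟨u0, hu0⟩, hre, hsc, hst, hidx2, hcnt, hJV⟩ :=
    hMOD p N hN0 G (H6.NE.Dl p N A) (H6.NE.dr p N A) e he hp2 hG horb
  have hAK : A ≤ K := by
    intro a ha
    apply hst u0 hu0
    rw [dr_eq_iff]
    intro b c hbc
    congr 2
    apply Subtype.ext
    rw [← hbc, hAab a ha b b.2, mul_inv_cancel_right]
  obtain ⟨hNd, hNdc, -, -⟩ := hNOD p N hN0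
  -- nodes from natural numbers
  have hcast : ∀ s t : ℕ, s < p → t < p → ((s : ZMod (p ^ N)) = (t : ZMod (p ^ N))) → s = t := by
    have h1 : Set.InjOn (fun i : ℕ => (i : ZMod (p ^ N))) (Finset.range p : Finset ℕ) := by
      rw [← Finset.card_image_iff, hNdc, Finset.card_range]
    intro s t hs ht h
    exact h1 (by simpa using hs) (by simpa using ht) h
  have hbad : ∀ u ∈ Gd, ∀ x : H6.NE.Dl p N A, ∃ B : Finset ℕ, B.card ≤ r ∧
      ∀ s < p, s ∉ B → x + s • u ∈ Gd := by
    classical
    intro u hu x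
    refine ⟨(Finset.range p).filter (fun s => x + s • u ∉ Gd), ?_, ?_⟩
    · have h1 := hcnt u hu x (((Finset.range p).filter (fun s => x + s • u ∉ Gd)).image
        (fun i : ℕ => (i : ZMod (p ^ N)))) ?_ ?_
      · rwa [Finset.card_image_of_injOn] at h1
        intro s hs t ht hst
        have hs' := (Finset.mem_filter.mp (Finset.mem_coe.mp hs)).1
        have ht' := (Finset.mem_filter.mp (Finset.mem_coe.mp ht)).1
        exact hcast s t (Finset.mem_range.mp hs') (Finset.mem_range.mp ht') hst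
      · intro s hs t ht hst
        refine hNd s ?_ t ?_ hst
        · exact Finset.image_subset_image (Finset.filter_subset _ _) hs
        · exact Finset.image_subset_image (Finset.filter_subset _ _) ht
      · intro s hs
        obtain ⟨i, hi, rfl⟩ := Finset.mem_image.mp hs
        have := (Finset.mem_filter.mp hi).2
        rwa [Nat.cast_smul_eq_nsmul]
    · intro s hs hsB
      by_contra hcon
      exact hsB (Finset.mem_filter.mpr ⟨Finset.mem_range.mpr hs, hcon⟩)
  rcases Nat.lt_or_ge r e with hlt | hge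
  · -- r < e
    have hcls := hCLS p N e hN0 he0 G A hAab hcardA hAc K hAK (hJV hlt)
    obtain ⟨k, ik, ikf, L, hkill, hcomm, hinv⟩ := hLAZ p N (2 * e - 1) hN0 (by omega) (by omega) K
      hcls (hN ▸ Subgroup.card_subgroup_dvd_card K)
    let a := logA L A hAab hcomm
    let E := logEquiv (hA := hAab) (hcomm := hcomm) L hAK
    have hzK : (⟨z, hAK hzA⟩ : K) = L.e (L.e.symm ⟨z, hAK hzA⟩) := (L.e.apply_symm_apply _).symm
    have hza : L.e.symm ⟨z, hAK hzA⟩ ∈ a := by
      change (L.e (L.e.symm ⟨z, hAK hzA⟩) : G) ∈ A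
      rw [Equiv.apply_symm_apply]
      exact hzA
    obtain ⟨V, i1, i2, i3, ρ, h1, h2, h3⟩ := hEND p N G K k L hkill a
      (logA_idl L hinv) (logA_lie L) (fun g x hx => logA_conj L hAK g x hx) r e
      (fun u => u.comp E.symm.toAddMonoidHom ∈ Gd) (by omega) he
      ⟨u0.comp E.toAddMonoidHom, by
        have : (u0.comp E.toAddMonoidHom).comp E.symm.toAddMonoidHom = u0 := by
          apply AddMonoidHom.ext
          intro y
          change u0 (E (E.symm y)) = u0 y
          rw [AddEquiv.apply_symm_apply]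
        rw [this]
        exact hu0⟩
      (by
        intro u hu g hgu
        apply hst _ hu
        rw [dr_eq_iff]
        intro b c hbc
        change u (E.symm (Additive.ofMul c)) = u (E.symm (Additive.ofMul b))
        apply hgu
        have hb : ((E (E.symm (Additive.ofMul b))).toMul : G) = (b : G) := by
          rw [AddEquiv.apply_symm_apply]; rfl
        have hc : ((E (E.symm (Additive.ofMul c))).toMul : G) = (c : G) := by
          rw [AddEquiv.apply_symm_apply]; rfl
        rw [logEquiv_apply] at hb hc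
        rw [hb, hc, hbc])
      (by
        intro u x hu
        obtain ⟨B, hB1, hB2⟩ := hbad _ hu (x.comp E.symm.toAddMonoidHom)
        refine ⟨B, hB1, fun s hs hsB => ?_⟩
        have h1 := hB2 s hs hsB
        have h2 : (x + s • u).comp E.symm.toAddMonoidHom =
            x.comp E.symm.toAddMonoidHom + s • u.comp E.symm.toAddMonoidHom := by
          apply AddMonoidHom.ext
          intro y
          rfl
        rw [h2]
        exact h1)
      hex hmax (L.e.symm ⟨z, hAK hzA⟩) hza (by
        intro h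
        have h1 := L.e_zero
        rw [← h, Equiv.apply_symm_apply] at h1
        exact hz1 (congrArg Subtype.val h1))
    refine ⟨V, i1, i2, i3, ρ, h1, h2, ?_⟩
    rw [← hzK] at h3
    exact h3
  · -- r = e
    have hre' : r = e := le_antisymm hre hge
    have hbig : ∀ u ∈ Gd, p ^ e ≤ (H6.NE.stb (H6.NE.dr p N A) u).index := by
      intro u hu
      have h1 := hidx2 u hu
      obtain ⟨j, hj⟩ := hidx u
      rw [hj, Nat.factorization_pow, hp.factorization] at h1
      rw [hj]
      apply Nat.pow_le_pow_right hp.pos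
      have h2 : r ≤ j := by simpa using h1
      omega
    by_cases hu0z : u0 (Additive.ofMul zA) = 0
    · obtain ⟨B, hB1, hB2⟩ := hbad u0 hu0 x0
      obtain ⟨s, hs, hsB⟩ : ∃ s < p, s ∉ B := by
        by_contra hcon
        push Not at hcon
        have h1 : Finset.range p ⊆ B := fun s hs => hcon s (Finset.mem_range.mp hs)
        have h2 := Finset.card_le_card h1
        rw [Finset.card_range] at h2
        omega
      refine large_orbit hEXI hCLI hmax (x0 + s • u0) zA ?_ (hbig _ (hB2 s hs hsB))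
      change x0 (Additive.ofMul zA) + (s • u0) (Additive.ofMul zA) ≠ 0
      have : (s • u0) (Additive.ofMul zA) = s • u0 (Additive.ofMul zA) := rfl
      rw [this, hu0z, smul_zero, add_zero]
      exact hx0
    · exact large_orbit hEXI hCLI hmax u0 zA hu0z (hbig u0 hu0)

end H2.KL
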