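import Pool.Agent.H2.KL.Stm

/-!
# KL, final block: pencils of alternating forms and the final choice of the functional.
-/

set_option autoImplicit false

open Finset Module

namespace H2.KL

/-- MOM (moment inequality).  For `y_s ∈ ker (B0 + s B1)`, `s ∈ S`, put `m_i = ∑ s^i y_s`; then
`B0 m_i = - B1 m_(i+1)`.  The map `(y_s) ↦ m_0 ∈ k`; on its kernel `m_1 ∈ ker B1`; on the kernel of
`m_1` also `m_2 ∈ ker B1`, ...; if `m_0 = ... = m_(|S|-1) = 0` then all `y_s = 0` (Vandermonde: the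
determinant is a product of differences, prime to `p`). -/
def S_MOM : Prop := ∀ (p N : ℕ) [Fact p.Prime] (k W : Type) [AddCommGroup k] [AddCommGroup W]
  [Finite k] [Finite W], (∀ x : k, (p ^ N) • x = 0) → ∀ (B0 B1 : k →+ W) (S : Finset ℕ), S.Nonempty →
  (∀ s ∈ S, ∀ t ∈ S, s ≠ t → ¬ s ≡ t [MOD p]) →
  ∏ s ∈ S, Nat.card (B0 + s • B1).ker ≤ Nat.card k * Nat.card B1.ker ^ (S.card - 1)

/-- PEN: at most `E` values of `s` (pairwise incongruent mod `p`) are bad.  MOM with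
`B_i x = φ_i ⁅x, ·⁆` (values in `k →+ ZMod (p^N)`), `ker B_i = rad φ_i`.  `|k| / |rad φ|` is the square
`(|h|/|rad φ|)^2` of a power of `p` (POL with `a = ⊥`), so a bad `s` has `|rad| ≥ p^2 |rad φ1|`. -/
def S_PEN : Prop := ∀ (p N : ℕ) [Fact p.Prime] (k : Type) [LieRing k] [Finite k],
  (∀ x : k, (p ^ N) • x = 0) → (∃ n, lcs k n = ⊥) → ∀ E : ℕ,
  (∀ φ : k →+ ZMod (p ^ N), Nat.card k ≤ p ^ (2 * E) * Nat.card (rad φ)) →
  ∀ φ0 φ1 : k →+ ZMod (p ^ N), Nat.card k = p ^ (2 * E) * Nat.card (rad φ1) →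
  ∀ S : Finset ℕ, (∀ s ∈ S, ∀ t ∈ S, s ≠ t → ¬ s ≡ t [MOD p]) →
  (∀ s ∈ S, Nat.card k < p ^ (2 * E) * Nat.card (rad (φ0 + s • φ1))) → S.card ≤ E

/-- REP3: as REP (ii) without stabiliser condition: POL, EXI, SPAN; `V` contains the `K`-span. -/
def S_REP3 : Prop := ∀ (p N : ℕ) [Fact p.Prime] (G : Type) [Group G] [Finite G] (K : Subgroup G)
  (k : Type) [LieRing k] [Finite k] (L : LExp K k), (∀ x : k, (p ^ N) • x = 0) →
  ∀ φ : k →+ ZMod (p ^ N),
    ∃ (V : Type) (_ : AddCommGroup V) (_ : Module ℂ V) (_ : FiniteDimensional ℂ V)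
      (ρ : Representation ℂ G V), ρ.IsIrreducible ∧
      Nat.card k ≤ finrank ℂ V ^ 2 * Nat.card (rad φ)

/-- END (final choice of the functional).  `Good u` implies that the stabiliser of `u` is in `K`, and
is generic on lines in good directions.  Let `p^(2E) = max |k| / |rad φ|` (a power of `p^2` by POL),
attained at `u2`; `E ≤ e` by REP3; `r + E ≤ 2e - 1 ≤ p - 2`.
Step 1: let `φ1` extend a good `u1` (DUAL).  On `u2 + s φ1`, `s ∈ {1..p-1}`: at most `r` are not good on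
`a`; and `u2 + s φ1 = s (φ1 + t u2)` with `t s = 1 mod p^N` (`rad` does not change under unit
multiples), so by PEN at most `E` do not have maximal rank.  So some `u = u2 + s φ1` is good on `a` and
has maximal rank.
Step 2: choose `ψ` with `ψ z ≠ 0` (DUAL).  If `u z ≠ 0` take `φ = u`, otherwise `φ = ψ + s u` with
`s < p` outside the at most `r + E` bad values.  `φ z ≠ 0`, `φ` good on `a`, maximal rank.
Step 3: REP (ii) gives `V` with `finrank^2 ≥ K.index^2 p^(2E)`, and REP (i) for the given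
representation of degree `p^e` gives `p^(2e) ≤ K.index^2 p^(2E)`. -/
def S_END : Prop := ∀ (p N : ℕ) [Fact p.Prime] (G : Type) [Group G] [Finite G] (K : Subgroup G)
  [K.Normal] (k : Type) [LieRing k] [Finite k] (L : LExp K k), (∀ x : k, (p ^ N) • x = 0) →
  ∀ a : AddSubgroup k, IsIdl a → (∀ x ∈ a, ∀ y ∈ a, ⁅x, y⁆ = 0) →
  (∀ g : G, ∀ x ∈ a, ∃ y ∈ a, g * (L.e x : G) * g⁻¹ = (L.e y : G)) →
  ∀ (r e : ℕ) (Good : (a →+ ZMod (p ^ N)) → Prop), r + 1 ≤ e → 2 * e < p → (∃ u, Good u) →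
  (∀ u, Good u → ∀ g : G,
    (∀ x y : a, g * (L.e x : G) * g⁻¹ = (L.e y : G) → u y = u x) → g ∈ K) →
  (∀ u x, Good u → ∃ B : Finset ℕ, B.card ≤ r ∧ ∀ s < p, s ∉ B → Good (x + s • u)) →
  (∃ (V : Type) (_ : AddCommGroup V) (_ : Module ℂ V) (_ : FiniteDimensional ℂ V)
    (ρ : Representation ℂ G V), ρ.IsIrreducible ∧ finrank ℂ V = p ^ e) →
  (∀ (V : Type) [AddCommGroup V] [Module ℂ V] [FiniteDimensional ℂ V]
    (ρ : Representation ℂ G V), ρ.IsIrreducible → finrank ℂ V ≤ p ^ e) →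
  ∀ z ∈ a, z ≠ 0 → ∃ (V : Type) (_ : AddCommGroup V) (_ : Module ℂ V) (_ : FiniteDimensional ℂ V)
    (ρ : Representation ℂ G V), ρ.IsIrreducible ∧ finrank ℂ V = p ^ e ∧ ρ (L.e z : G) ≠ 1

end H2.KL
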